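import Mathlib

/-! [OG-2]: algebraically independent numbers exist. -/

set_option autoImplicit false

namespace Pool.Agent.OG

/-- [OG-2] Proof.  A transcendence basis `b : ι → ℂ` of `ℂ` over `ℚ` has the cardinality of `ℂ`
(`IsAlgClosed.cardinal_eq_cardinal_transcendence_basis_of_aleph0_lt`), so `ι` is infinite and there is an injection `E → ι`. -/
theorem exists_algInd (E : Type) [Fintype E] : ∃ a : E → ℂ, AlgebraicIndependent ℚ a := by
  obtain ⟨s, hs⟩ := exists_isTranscendenceBasis ℚ ℂ
  have h1 : Cardinal.mk ℂ = Cardinal.mk s :=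
    IsAlgClosed.cardinal_eq_cardinal_transcendence_basis_of_aleph0_lt' _ hs
      (by simp) (by rw [Cardinal.mk_complex]; exact Cardinal.aleph0_lt_continuum)
  have h2 : Infinite s := by
    rw [Cardinal.infinite_iff, ← h1, Cardinal.mk_complex]
    exact Cardinal.aleph0_le_continuum
  obtain ⟨f⟩ : Nonempty (E ↪ s) := by
    have : Nonempty (Fin (Fintype.card E) ↪ s) := ⟨Fin.valEmbedding.trans (Infinite.natEmbedding s)⟩
    obtain ⟨g⟩ := this
    exact ⟨(Fintype.equivFin E).toEmbedding.trans g⟩
  exact ⟨fun e => (f e : ℂ), hs.1.comp f f.injective⟩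

end Pool.Agent.OG
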