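import Pool.Agent.Lib_MP_b9fedf_og.ElimOne

/-! Elimination, finitely many conclusions. -/

set_option autoImplicit false

namespace Pool.Agent.OG
open MvPolynomial

/-- Finitely many polynomials `m j`. -/
theorem elim {E W T J : Type} [Fintype E] [Fintype W] [Fintype J]
    (Ψ : T → MvPolynomial W (MvPolynomial E ℚ))
    (m : J → MvPolynomial W ℚ) (a₀ : E → ℂ) (ha₀ : AlgebraicIndependent ℚ a₀)
    (h : ∀ w : W → ℂ, (∀ t, ev a₀ w (Ψ t) = 0) → ∀ j, aeval w (m j) = 0) :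
    ∃ (s : Finset T) (d : MvPolynomial E ℚ), d ≠ 0 ∧ ∀ a : E → ℂ, aeval a d ≠ 0 →
      ∀ w : W → ℂ, (∀ t ∈ s, ev a w (Ψ t) = 0) → ∀ j, aeval w (m j) = 0 := by
  classical
  have h1 : ∀ j, ∃ (s : Finset T) (d : MvPolynomial E ℚ), d ≠ 0 ∧ ∀ a : E → ℂ, aeval a d ≠ 0 →
      ∀ w : W → ℂ, (∀ t ∈ s, ev a w (Ψ t) = 0) → aeval w (m j) = 0 := fun j =>
    elim_one Ψ (m j) a₀ ha₀ fun w hw => h w hw j
  choose s d hd hsd using h1
  refine ⟨Finset.univ.biUnion s, ∏ j, d j, Finset.prod_ne_zero_iff.2 fun j _ => hd j, ?_⟩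
  intro a ha w hw j
  rw [map_prod, Finset.prod_ne_zero_iff] at ha
  exact hsd j a (ha j (Finset.mem_univ _)) w fun t ht =>
    hw t (Finset.mem_biUnion.2 ⟨j, Finset.mem_univ _, ht⟩)

end Pool.Agent.OG
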