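import Mathlib

/-! Values of polynomials with polynomial coefficients. -/

set_option autoImplicit false

namespace Pool.Agent.OG
open MvPolynomial

/-- values of a polynomial in `w` with coefficients in `ℚ[a]` -/
noncomputable def ev {E W : Type} (a : E → ℂ) (w : W → ℂ)
    (Ψ : MvPolynomial W (MvPolynomial E ℚ)) : ℂ :=
  eval₂ ((aeval a : MvPolynomial E ℚ →ₐ[ℚ] ℂ) : MvPolynomial E ℚ →+* ℂ) w Ψ

end Pool.Agent.OG
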