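import Pool.Agent.Lib_MP_b9fedf_og.Rows

/-! [OG-4b]: general position is a polynomial condition. -/

set_option autoImplicit false

namespace Pool.Agent.OG
open MvPolynomial

private theorem posn1 {k : ℕ} {ι : Type} [Fintype ι]
    (g : Matrix (Fin (k + 3)) (Fin (k + 3)) ℤ) (hg : g.det ≠ 0) (i : ι) :
    ∃ D : MvPolynomial (ι × Fin (k + 3)) ℚ, D ≠ 0 ∧ ∀ a : ι → Fin (k + 3) → ℂ,
      aeval (fun x : ι × Fin (k + 3) => a x.1 x.2) D ≠ 0 →
        Matrix.vecMul (a i) (g.map (Int.cast : ℤ → ℂ)) 2 ≠ 0 := by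
  obtain ⟨D, hD, h⟩ := rows_poly g hg (fun _ : Fin 1 => (2 : Fin (k + 3)))
    (Function.injective_of_subsingleton _) {i} (Finset.card_singleton i)
  refine ⟨D, hD, fun a ha h0 => ?_⟩
  have h1 := (h a ha).ne_zero ⟨i, Finset.mem_singleton_self i⟩
  exact h1 (funext fun _ => h0)

private theorem posn2 {k : ℕ} {ι : Type} [Fintype ι]
    (g : Matrix (Fin (k + 3)) (Fin (k + 3)) ℤ) (hg : g.det ≠ 0) (S : Finset ι) :
    ∃ D : MvPolynomial (ι × Fin (k + 3)) ℚ, D ≠ 0 ∧ ∀ a : ι → Fin (k + 3) → ℂ,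
      aeval (fun x : ι × Fin (k + 3) => a x.1 x.2) D ≠ 0 →
        (S.card ≤ k + 3 → LinearIndependent ℂ (fun i : S =>
          Matrix.vecMul (a i) (g.map (Int.cast : ℤ → ℂ)))) := by
  by_cases hS : S.card ≤ k + 3
  · obtain ⟨D, hD, h⟩ := rows_poly g hg (Fin.castLE hS) (Fin.castLE_injective hS) S rfl
    refine ⟨D, hD, fun a ha _ => ?_⟩
    exact LinearIndependent.of_comp (LinearMap.funLeft ℂ ℂ (Fin.castLE hS)) (h a ha)
  · exact ⟨1, one_ne_zero, fun a _ h => absurd h hS⟩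

private theorem posn3 {k : ℕ} {ι : Type} [Fintype ι]
    (g : Matrix (Fin (k + 3)) (Fin (k + 3)) ℤ) (hg : g.det ≠ 0) (S : Finset ι) :
    ∃ D : MvPolynomial (ι × Fin (k + 3)) ℚ, D ≠ 0 ∧ ∀ a : ι → Fin (k + 3) → ℂ,
      aeval (fun x : ι × Fin (k + 3) => a x.1 x.2) D ≠ 0 →
        (S.card ≤ k + 1 → LinearIndependent ℂ (fun i : S => fun j : Fin (k + 1) =>
          Matrix.vecMul (a i) (g.map (Int.cast : ℤ → ℂ)) j.succ.succ)) := by
  by_cases hS : S.card ≤ k + 1
  · obtain ⟨D, hD, h⟩ := rows_poly g hg (fun j : Fin S.card => (Fin.castLE hS j).succ.succ)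
      (fun x y hxy => Fin.castLE_injective hS
        (Fin.succ_injective _ (Fin.succ_injective _ hxy))) S rfl
    refine ⟨D, hD, fun a ha _ => ?_⟩
    exact LinearIndependent.of_comp (LinearMap.funLeft ℂ ℂ (Fin.castLE hS)) (h a ha)
  · exact ⟨1, one_ne_zero, fun a _ h => absurd h hS⟩

/-- [OG-4b] All conditions of general position for one matrix `g`.  Proof.  The product, over the finitely many `S : Finset ι` and
`i : ι`, of the polynomials from `rows_poly` (`c j = j` for `S.card ≤ k + 3` (`Fin.castLE`), `c j = j + 2` for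
`S.card ≤ k + 1`) and of the `∑ l, X (i, l) * g l 2` (or `rows_poly` for `S = {i}`, `c 0 = 2`: the row is not zero); linear independence of
the shorter rows implies that of the longer rows (`LinearIndependent.of_comp` with the projection). -/
theorem position_poly {k : ℕ} {ι : Type} [Fintype ι]
    (g : Matrix (Fin (k + 3)) (Fin (k + 3)) ℤ) (hg : g.det ≠ 0) :
    ∃ D : MvPolynomial (ι × Fin (k + 3)) ℚ, D ≠ 0 ∧ ∀ a : ι → Fin (k + 3) → ℂ,
      aeval (fun x : ι × Fin (k + 3) => a x.1 x.2) D ≠ 0 →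
        (∀ i, Matrix.vecMul (a i) (g.map (Int.cast : ℤ → ℂ)) 2 ≠ 0) ∧
        (∀ S : Finset ι, S.card ≤ k + 3 → LinearIndependent ℂ (fun i : S =>
          Matrix.vecMul (a i) (g.map (Int.cast : ℤ → ℂ)))) ∧
        (∀ S : Finset ι, S.card ≤ k + 1 → LinearIndependent ℂ (fun i : S => fun j : Fin (k + 1) =>
          Matrix.vecMul (a i) (g.map (Int.cast : ℤ → ℂ)) j.succ.succ)) := by
  choose D1 h1 h1' using posn1 (ι := ι) g hg
  choose D2 h2 h2' using posn2 (ι := ι) g hg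
  choose D3 h3 h3' using posn3 (ι := ι) g hg
  refine ⟨(∏ i, D1 i) * (∏ S, D2 S) * ∏ S, D3 S, ?_, ?_⟩
  · exact mul_ne_zero (mul_ne_zero (Finset.prod_ne_zero_iff.2 fun i _ => h1 i)
      (Finset.prod_ne_zero_iff.2 fun S _ => h2 S)) (Finset.prod_ne_zero_iff.2 fun S _ => h3 S)
  · intro a ha
    rw [map_mul, map_mul, map_prod, map_prod, map_prod] at ha
    have ha3 := Finset.prod_ne_zero_iff.1 (right_ne_zero_of_mul ha)
    have ha2 := Finset.prod_ne_zero_iff.1 (right_ne_zero_of_mul (left_ne_zero_of_mul ha))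
    have ha1 := Finset.prod_ne_zero_iff.1 (left_ne_zero_of_mul (left_ne_zero_of_mul ha))
    exact ⟨fun i => h1' i a (ha1 i (Finset.mem_univ i)),
      fun S hS => h2' S a (ha2 S (Finset.mem_univ S)) hS,
      fun S hS => h3' S a (ha3 S (Finset.mem_univ S)) hS⟩

end Pool.Agent.OG
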