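import Pool.Agent.Lib_MP_b9fedf_lg.Defs
import Pool.Agent.Lib_MP_b9fedf_og.Defs

/-! [OG-3]: the value of the universal form as a polynomial. -/

set_option autoImplicit false

namespace Pool.Agent.OG
open MvPolynomial Pool.Agent.LG

private theorem Psi_pl {R S : Type} [CommRing R] [CommRing S] (f : R →+* S) {k : ℕ}
    (u v : Fin (k + 3) → R) : f ∘ pl u v = pl (f ∘ u) (f ∘ v) := by
  funext x
  rcases x with x | x | x <;> simp [pl]

/-- [OG-3] The value of the universal form `P` (in the members `i` with `p i`) at the line through `u` and `v`, in the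
coordinates `g`, is a polynomial in `u`, `v` (variables `Sum.inl`, `Sum.inr`) with coefficients in `ℚ[a_ij]`.  Proof.
`Ψ = eval₂ φ (pl uu vv) P` with `φ : MvPolynomial ({i // p i} × Fin (k + 3)) ℚ →+* MvPolynomial W (MvPolynomial (ι × Fin (k + 3)) ℚ)` the
ring homomorphism of `aeval (fun x => C (∑ l, X (x.1.1, l) * (g l x.2 : MvPolynomial _ ℚ)))`, `uu i = ∑ j, (adjugate g i j) * X (Sum.inl j)`, `vv i` the same with
`Sum.inr`; `ev a (Sum.elim u v)` is a ring homomorphism (`eval₂Hom`), use `hom_eval₂` (or `eval₂_comp_left`) and that `pl` commutes with ring homomorphisms;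
`spec` is `MvPolynomial.map`, `eval x (map f P) = eval₂ f x P` (`eval_map`); the adjugate commutes with `Int.cast`
(`RingHom.map_adjugate`). -/
theorem exists_psi {k : ℕ} {ι : Type} [Fintype ι] (p : ι → Prop)
    (P : MvPolynomial (V k) (MvPolynomial ({i : ι // p i} × Fin (k + 3)) ℚ))
    (g : Matrix (Fin (k + 3)) (Fin (k + 3)) ℤ) :
    ∃ Ψ : MvPolynomial (Fin (k + 3) ⊕ Fin (k + 3)) (MvPolynomial (ι × Fin (k + 3)) ℚ),
      ∀ (a : ι → Fin (k + 3) → ℂ) (u v : Fin (k + 3) → ℂ),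
        ev (fun x : ι × Fin (k + 3) => a x.1 x.2) (Sum.elim u v) Ψ =
          eval (pl ((g.map (Int.cast : ℤ → ℂ)).adjugate.mulVec u)
            ((g.map (Int.cast : ℤ → ℂ)).adjugate.mulVec v))
            (spec (fun i : {i : ι // p i} => Matrix.vecMul (a i) (g.map (Int.cast : ℤ → ℂ))) P) := by
  have hadj : (g.map (Int.cast : ℤ → ℂ)).adjugate = g.adjugate.map (Int.cast : ℤ → ℂ) :=
    (RingHom.map_adjugate (Int.castRingHom ℂ) g).symm
  let φ : MvPolynomial ({i : ι // p i} × Fin (k + 3)) ℚ →+*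
      MvPolynomial (Fin (k + 3) ⊕ Fin (k + 3)) (MvPolynomial (ι × Fin (k + 3)) ℚ) :=
    (C : MvPolynomial (ι × Fin (k + 3)) ℚ →+* _).comp
      (aeval (fun x : {i : ι // p i} × Fin (k + 3) =>
        ∑ l, (X (x.1.1, l) * ((g l x.2 : ℤ) : MvPolynomial (ι × Fin (k + 3)) ℚ)))
          : MvPolynomial ({i : ι // p i} × Fin (k + 3)) ℚ →ₐ[ℚ] _).toRingHom
  let uu : Fin (k + 3) → MvPolynomial (Fin (k + 3) ⊕ Fin (k + 3)) (MvPolynomial (ι × Fin (k + 3)) ℚ) :=
    fun i => ∑ j, ((g.adjugate i j : ℤ) : MvPolynomial _ _) * X (Sum.inl j)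
  let vv : Fin (k + 3) → MvPolynomial (Fin (k + 3) ⊕ Fin (k + 3)) (MvPolynomial (ι × Fin (k + 3)) ℚ) :=
    fun i => ∑ j, ((g.adjugate i j : ℤ) : MvPolynomial _ _) * X (Sum.inr j)
  refine ⟨eval₂ φ (pl uu vv) P, ?_⟩
  intro a u v
  obtain ⟨E, hE⟩ : ∃ E : MvPolynomial (Fin (k + 3) ⊕ Fin (k + 3)) (MvPolynomial (ι × Fin (k + 3)) ℚ) →+* ℂ,
      E = eval₂Hom ((aeval (fun x : ι × Fin (k + 3) => a x.1 x.2) :
        MvPolynomial (ι × Fin (k + 3)) ℚ →ₐ[ℚ] ℂ) : MvPolynomial (ι × Fin (k + 3)) ℚ →+* ℂ)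
        (Sum.elim u v) := ⟨_, rfl⟩
  have h1 : ev (fun x : ι × Fin (k + 3) => a x.1 x.2) (Sum.elim u v) (eval₂ φ (pl uu vv) P) =
      E (eval₂ φ (pl uu vv) P) := by rw [hE]; rfl
  rw [h1, eval₂_comp_left, Psi_pl]
  unfold spec
  rw [eval_map]
  have hX : ∀ w, E (X w) = Sum.elim u v w := by
    intro w
    rw [hE, coe_eval₂Hom, eval₂_X]
  have hC : ∀ w, E (C w) = aeval (fun x : ι × Fin (k + 3) => a x.1 x.2) w := by
    intro w
    rw [hE, coe_eval₂Hom, eval₂_C]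
    rfl
  have hu : E ∘ uu = (g.map (Int.cast : ℤ → ℂ)).adjugate.mulVec u := by
    funext i
    rw [hadj]
    show E (∑ j, ((g.adjugate i j : ℤ) : MvPolynomial _ _) * X (Sum.inl j)) = _
    rw [map_sum]
    simp only [map_mul, map_intCast, hX, Sum.elim_inl]
    rfl
  have hv : E ∘ vv = (g.map (Int.cast : ℤ → ℂ)).adjugate.mulVec v := by
    funext i
    rw [hadj]
    show E (∑ j, ((g.adjugate i j : ℤ) : MvPolynomial _ _) * X (Sum.inr j)) = _
    rw [map_sum]
    simp only [map_mul, map_intCast, hX, Sum.elim_inr]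
    rfl
  rw [hu, hv]
  congr 1
  apply MvPolynomial.ringHom_ext
  · intro r
    exact RingHom.congr_fun (Subsingleton.elim ((E.comp φ).comp C)
      ((aeval (fun x : {i : ι // p i} × Fin (k + 3) => Matrix.vecMul (a x.1)
        (g.map (Int.cast : ℤ → ℂ)) x.2) : MvPolynomial ({i : ι // p i} × Fin (k + 3)) ℚ →ₐ[ℚ] ℂ).toRingHom.comp C)) r
  · intro x
    show E (C (aeval (fun x : {i : ι // p i} × Fin (k + 3) =>
        ∑ l, (X (x.1.1, l) * ((g l x.2 : ℤ) : MvPolynomial (ι × Fin (k + 3)) ℚ))) (X x))) =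
      aeval (fun x : {i : ι // p i} × Fin (k + 3) => Matrix.vecMul (a x.1)
        (g.map (Int.cast : ℤ → ℂ)) x.2) (X x)
    rw [aeval_X, aeval_X, hC, map_sum]
    simp only [map_mul, map_intCast, aeval_X]
    rfl

end Pool.Agent.OG
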