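import Pool.Agent.Lib_MP_b9fedf_lg.GenForm
import Pool.Agent.Lib_MP_b9fedf_og.Elim
import Pool.Agent.Lib_MP_b9fedf_og.AlgInd
import Pool.Agent.Lib_MP_b9fedf_og.Psi
import Pool.Agent.Lib_MP_b9fedf_og.Posn

/-! General hyperplanes: the forms of `generic_form` exist for all families of hyperplanes outside a
proper algebraic subset which is defined over `ℚ`. -/

set_option autoImplicit false

namespace Pool.Agent.OG
open MvPolynomial Pool.Agent.LG

private theorem eval_sc {σ : Type} [Fintype σ] {d : ℕ} {P : MvPolynomial σ ℂ} (hP : P.IsHomogeneous d)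
    (t : ℂ) (x : σ → ℂ) : eval (fun i => t * x i) P = t ^ d * eval x P := by
  classical
  rw [eval_eq', eval_eq', Finset.mul_sum]
  refine Finset.sum_congr rfl fun s hs => ?_
  have h1 : ∑ i, s i = d := by
    have := hP (mem_support_iff.mp hs)
    rw [Finsupp.weight_apply, Finsupp.sum_fintype _ _ (by simp)] at this
    simpa using this
  have h2 : ∏ i, (t * x i) ^ s i = t ^ d * ∏ i, x i ^ s i := by
    rw [← h1, ← Finset.prod_pow_eq_pow_sum, ← Finset.prod_mul_distrib]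
    exact Finset.prod_congr rfl fun i _ => mul_pow _ _ _
  rw [h2]
  ring

/-- the minors of `(u, v)` -/
noncomputable def mnr {k : ℕ} (ij : Fin (k + 3) × Fin (k + 3)) :
    MvPolynomial (Fin (k + 3) ⊕ Fin (k + 3)) ℚ :=
  X (Sum.inl ij.1) * X (Sum.inr ij.2) - X (Sum.inl ij.2) * X (Sum.inr ij.1)

theorem aeval_mnr {k : ℕ} (u v : Fin (k + 3) → ℂ) (ij : Fin (k + 3) × Fin (k + 3)) :
    aeval (Sum.elim u v) (mnr ij) = u ij.1 * v ij.2 - u ij.2 * v ij.1 := by
  simp only [mnr, map_sub, map_mul, aeval_X, Sum.elim_inl, Sum.elim_inr]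

theorem minor_ne {k : ℕ} (u v : Fin (k + 3) → ℂ) (huv : LinearIndependent ℂ ![u, v]) :
    ∃ ij : Fin (k + 3) × Fin (k + 3), u ij.1 * v ij.2 - u ij.2 * v ij.1 ≠ 0 := by
  by_contra hcon
  push Not at hcon
  rw [LinearIndependent.pair_iff] at huv
  have hu : ∀ i, u i = 0 := by
    intro i
    have h1 : v i • u + (-u i) • v = 0 := by
      funext l
      have := hcon (i, l)
      simp only [Pi.add_apply, Pi.smul_apply, smul_eq_mul, Pi.zero_apply]
      linear_combination -this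
    exact neg_eq_zero.mp (huv _ _ h1).2
  have h2 : (1 : ℂ) • u + (0 : ℂ) • v = 0 := by
    funext l
    simp [hu l]
  exact one_ne_zero (huv _ _ h2).1

theorem indep_of_minor {k : ℕ} (u v : Fin (k + 3) → ℂ) (ij : Fin (k + 3) × Fin (k + 3))
    (h : u ij.1 * v ij.2 - u ij.2 * v ij.1 ≠ 0) : LinearIndependent ℂ ![u, v] := by
  rw [LinearIndependent.pair_iff]
  intro s t hst
  have h1 := congrFun hst ij.1
  have h2 := congrFun hst ij.2
  simp only [Pi.add_apply, Pi.smul_apply, smul_eq_mul, Pi.zero_apply] at h1 h2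
  constructor
  · have h3 : s * (u ij.1 * v ij.2 - u ij.2 * v ij.1) = 0 := by
      linear_combination v ij.2 * h1 - v ij.1 * h2
    exact (mul_eq_zero.1 h3).resolve_right h
  · have h3 : t * (u ij.1 * v ij.2 - u ij.2 * v ij.1) = 0 := by
      linear_combination u ij.1 * h2 - u ij.2 * h1
    exact (mul_eq_zero.1 h3).resolve_right h

/-- General hyperplanes: there is a nonzero polynomial `S` over `ℚ` in the coefficients such that
the forms exist for all families `a` with `S(a) ≠ 0`. -/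
theorem open_form {k s : ℕ} {ι : Type} [Fintype ι] [DecidableEq ι] (hs : 2 ≤ s)
    (hq : Fintype.card ι ≤ s ^ 2) :
    ∃ S : MvPolynomial (ι × Fin (k + 3)) ℚ, S ≠ 0 ∧ ∀ a : ι → Fin (k + 3) → ℂ,
      aeval (fun p : ι × Fin (k + 3) => a p.1 p.2) S ≠ 0 → GenForm s a := by
  classical
  -- the universal forms
  have hq' : ∀ R : Finset ι, Fintype.card {i : ι // i ∉ R} ≤ s ^ 2 := fun R =>
    (Fintype.card_subtype_le _).trans hq
  have hU : ∀ R : Finset ι, ∃ P : MvPolynomial (V k) (MvPolynomial ({i : ι // i ∉ R} × Fin (k + 3)) ℚ),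
      P ≠ 0 ∧ P.IsHomogeneous ((2 * k + 2) * (s - 1)) ∧
      ∀ i, aeval (par (fun j : Fin (k + 3) =>
        (X (i, j) : MvPolynomial ({i : ι // i ∉ R} × Fin (k + 3)) ℚ))) P = 0 := fun R =>
    universal_form (k := k) (ι := {i : ι // i ∉ R}) hs (hq' R)
  choose P hP0 hPh hPv using hU
  let T : Type := {t : Finset ι × Matrix (Fin (k + 3)) (Fin (k + 3)) ℤ // t.1.card ≤ 2 * k + 2 ∧
    t.2.det ≠ 0}
  have hΨ : ∀ t : T, ∃ Ψ : MvPolynomial (Fin (k + 3) ⊕ Fin (k + 3)) (MvPolynomial (ι × Fin (k + 3)) ℚ),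
      ∀ (a : ι → Fin (k + 3) → ℂ) (u v : Fin (k + 3) → ℂ),
        ev (fun x : ι × Fin (k + 3) => a x.1 x.2) (Sum.elim u v) Ψ =
          eval (pl ((t.1.2.map (Int.cast : ℤ → ℂ)).adjugate.mulVec u)
            ((t.1.2.map (Int.cast : ℤ → ℂ)).adjugate.mulVec v))
            (spec (fun i : {i : ι // i ∉ t.1.1} =>
              Matrix.vecMul (a i) (t.1.2.map (Int.cast : ℤ → ℂ))) (P t.1.1)) := fun t =>
    exists_psi (fun i => i ∉ t.1.1) (P t.1.1) t.1.2
  choose Ψ hΨ using hΨ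
  -- a generic family
  obtain ⟨a₀', ha₀'⟩ := exists_algInd (ι × Fin (k + 3))
  set a₀ : ι → Fin (k + 3) → ℂ := fun i j => a₀' (i, j) with ha₀
  have ha₀i : AlgebraicIndependent ℚ (fun p : ι × Fin (k + 3) => a₀ p.1 p.2) := ha₀'
  have key : ∀ w : Fin (k + 3) ⊕ Fin (k + 3) → ℂ,
      (∀ t, ev (fun p : ι × Fin (k + 3) => a₀ p.1 p.2) w (Ψ t) = 0) →
        ∀ ij : Fin (k + 3) × Fin (k + 3), aeval w (mnr ij) = 0 := by
    intro w hw ij
    obtain ⟨u, v, rfl⟩ : ∃ u v : Fin (k + 3) → ℂ, w = Sum.elim u v :=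
      ⟨w ∘ Sum.inl, w ∘ Sum.inr, (Sum.elim_comp_inl_inr w).symm⟩
    rw [aeval_mnr]
    by_contra hne
    have huv := indep_of_minor u v ij hne
    obtain ⟨x, u', v', c, hc, hu', hv', huv', hpl⟩ := normalise u v huv
    obtain ⟨S, hS, hSi⟩ := indep_off (fun p : ι × Fin (k + 3) => a₀ p.1 p.2) ha₀i x
    set R : Finset ι := S.image Prod.fst with hR
    have hRc : R.card ≤ 2 * k + 2 := Finset.card_image_le.trans hS
    obtain ⟨gz, b, hgz, hb⟩ := exists_integral (P R) (hP0 R) (hPh R) u' v' huv'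
    set a' : {i : ι // i ∉ R} → Fin (k + 3) → ℂ := fun i => a₀ i with ha'
    have hai : AlgebraicIndependent (Algebra.adjoin ℚ (Set.range x))
        (fun p : {i : ι // i ∉ R} × Fin (k + 3) => a' p.1 p.2) := by
      let e : {i : ι // i ∉ R} × Fin (k + 3) → {e : ι × Fin (k + 3) // e ∉ S} := fun p =>
        ⟨(p.1, p.2), fun h => p.1.2 (Finset.mem_image.mpr ⟨_, h, rfl⟩)⟩
      have he : Function.Injective e := by
        intro p q hpq
        have h1 := congrArg Subtype.val hpq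
        simp only [e, Prod.mk.injEq] at h1
        exact Prod.ext (Subtype.ext h1.1) h1.2
      exact hSi.comp e he
    have h1 := generic_eval (P R) _ u' v' hu' hv' gz hgz b hb a' hai
    have h2 := hw ⟨(R, gz), hRc, hgz⟩
    rw [hΨ] at h2
    simp only at h2
    have hh : (spec (fun i : {i : ι // i ∉ R} => Matrix.vecMul (a₀ i) (gz.map (Int.cast : ℤ → ℂ)))
        (P R)).IsHomogeneous ((2 * k + 2) * (s - 1)) := (hPh R).map _
    rw [hpl, eval_sc hh] at h2
    exact mul_ne_zero (pow_ne_zero _ hc) h1 h2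
  obtain ⟨T', d, hd, hdT⟩ := elim Ψ mnr (fun p : ι × Fin (k + 3) => a₀ p.1 p.2) ha₀i key
  -- general position
  have hD : ∀ t : T, ∃ D : MvPolynomial (ι × Fin (k + 3)) ℚ, D ≠ 0 ∧
      ∀ a : ι → Fin (k + 3) → ℂ, aeval (fun x : ι × Fin (k + 3) => a x.1 x.2) D ≠ 0 →
        (∀ i, Matrix.vecMul (a i) (t.1.2.map (Int.cast : ℤ → ℂ)) 2 ≠ 0) ∧
        (∀ S : Finset ι, S.card ≤ k + 3 → LinearIndependent ℂ (fun i : S =>
          Matrix.vecMul (a i) (t.1.2.map (Int.cast : ℤ → ℂ)))) ∧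
        (∀ S : Finset ι, S.card ≤ k + 1 → LinearIndependent ℂ (fun i : S => fun j : Fin (k + 1) =>
          Matrix.vecMul (a i) (t.1.2.map (Int.cast : ℤ → ℂ)) j.succ.succ)) := fun t =>
    position_poly t.1.2 t.2.2
  choose D hD0 hDa using hD
  obtain ⟨D₁, hD₁0, hD₁a⟩ := position_poly (k := k) (ι := ι) 1 (by rw [Matrix.det_one]; exact one_ne_zero)
  refine ⟨d * (∏ t ∈ T', D t) * D₁, mul_ne_zero (mul_ne_zero hd
    (Finset.prod_ne_zero_iff.2 fun t _ => hD0 t)) hD₁0, ?_⟩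
  intro a ha
  rw [map_mul, map_mul, map_prod] at ha
  have ha1 := left_ne_zero_of_mul (left_ne_zero_of_mul ha)
  have ha2 := Finset.prod_ne_zero_iff.1 (right_ne_zero_of_mul (left_ne_zero_of_mul ha))
  have ha3 := right_ne_zero_of_mul ha
  refine ⟨fun S hS => ?_, fun u v huv => ?_⟩
  · have h1 := (hD₁a a ha3).2.1 S hS
    have h2 : ((1 : Matrix (Fin (k + 3)) (Fin (k + 3)) ℤ).map (Int.cast : ℤ → ℂ)) = 1 :=
      Matrix.map_one _ Int.cast_zero Int.cast_one
    simpa only [h2, Matrix.vecMul_one] using h1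
  obtain ⟨ij, hij⟩ := minor_ne u v huv
  obtain ⟨t, htT, ht⟩ : ∃ t ∈ T', ev (fun p : ι × Fin (k + 3) => a p.1 p.2) (Sum.elim u v) (Ψ t) ≠ 0 := by
    by_contra hcon
    push Not at hcon
    have h1 := hdT _ ha1 (Sum.elim u v) hcon ij
    rw [aeval_mnr] at h1
    exact hij h1
  obtain ⟨h2, h3, h4⟩ := hDa t a (ha2 t htT)
  rw [hΨ] at ht
  obtain ⟨⟨R, gz⟩, hRc, hgz⟩ := t
  simp only at ht h2 h3 h4 hRc hgz
  set gc : Matrix (Fin (k + 3)) (Fin (k + 3)) ℂ := gz.map (Int.cast : ℤ → ℂ) with hgc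
  have hdet : gc.det ≠ 0 := by
    have h1 : gc.det = ((gz.det : ℤ) : ℂ) := by
      rw [hgc]
      exact (Int.cast_det gz).symm
    rw [h1]
    exact_mod_cast hgz
  have hunit : IsUnit gc.det := isUnit_iff_ne_zero.mpr hdet
  set Pa : MvPolynomial (V k) ℂ :=
    spec (fun i : {i : ι // i ∉ R} => Matrix.vecMul (a i) gc) (P R) with hPa
  have hPah : Pa.IsHomogeneous ((2 * k + 2) * (s - 1)) := (hPh R).map _
  refine ⟨R, gc, gc⁻¹, Pa, hRc, Matrix.mul_nonsing_inv _ hunit, hPah, ?_, h4, ?_⟩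
  · intro i hi Z h0 h1
    exact spec_vanish (P R) ⟨i, hi⟩ (hPv R ⟨i, hi⟩) (fun i => Matrix.vecMul (a i) gc) (h2 i) Z h0 h1
  · have h1 : gc⁻¹ = (gc.det)⁻¹ • gc.adjugate := by
      rw [Matrix.inv_def, Ring.inverse_eq_inv']
    have h5 : pl (gc⁻¹.mulVec u) (gc⁻¹.mulVec v) = fun s => ((gc.det)⁻¹ ^ 2) *
        pl (gc.adjugate.mulVec u) (gc.adjugate.mulVec v) s := by
      rw [h1, Matrix.smul_mulVec, Matrix.smul_mulVec, pl_smul]
    rw [h5, eval_sc hPah]
    exact mul_ne_zero (pow_ne_zero _ (pow_ne_zero _ (inv_ne_zero hdet))) ht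

end Pool.Agent.OG
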