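import Mathlib

/-! [OG-1a], [OG-1b]: ideal membership over a smaller field or ring. -/

set_option autoImplicit false

namespace Pool.Agent.OG
open MvPolynomial

/-- [OG-1a] Descent.  `F` a field, `K` an extension (`Algebra F K`), `f_t`, `g` polynomials over `F`; if `g` is
in the ideal generated by the `f_t` over `K` (finite sum) then it is so over `F`.  Proof.  `ρ : K →ₗ[F] F` with
`ρ (algebraMap F K x) = x` (`LinearMap.exists_leftInverse_of_injective` for `Algebra.linearMap F K`); apply `ρ`
to the coefficients: `H' = ∑ monomial m (ρ (coeff m H))`, `coeff m H' = ρ (coeff m H)`; compare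
coefficients of `map g = ∑ map f_t * H_t` (`coeff_mul`, `ρ (algebraMap x * y) = x * ρ y`). -/
theorem descent {F K W T : Type} [Field F] [Field K] [Algebra F K] (s : Finset T)
    (f : T → MvPolynomial W F) (g : MvPolynomial W F) (H : T → MvPolynomial W K)
    (h : map (algebraMap F K) g = ∑ t ∈ s, map (algebraMap F K) (f t) * H t) :
    ∃ H' : T → MvPolynomial W F, g = ∑ t ∈ s, f t * H' t := by
  classical
  have hinj : LinearMap.ker (Algebra.linearMap F K) = ⊥ :=
    LinearMap.ker_eq_bot.mpr (algebraMap F K).injective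
  obtain ⟨ρ, hρ⟩ := LinearMap.exists_leftInverse_of_injective (Algebra.linearMap F K) hinj
  have hρ1 : ∀ x : F, ρ (algebraMap F K x) = x := fun x => LinearMap.congr_fun hρ x
  have hρ2 : ∀ (x : F) (y : K), ρ (algebraMap F K x * y) = x * ρ y := fun x y => by
    rw [← Algebra.smul_def, map_smul, smul_eq_mul]
  refine ⟨fun t => ∑ m ∈ (H t).support, monomial m (ρ (coeff m (H t))), ?_⟩
  have hc : ∀ (t : T) (m : W →₀ ℕ),
      coeff m (∑ m' ∈ (H t).support, monomial m' (ρ (coeff m' (H t)))) = ρ (coeff m (H t)) := by
    intro t m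
    rw [coeff_sum]
    simp only [coeff_monomial]
    rw [Finset.sum_ite_eq']
    split_ifs with h1
    · rfl
    · rw [notMem_support_iff.mp h1, map_zero]
  ext m
  have h1 : coeff m g = ρ (coeff m (map (algebraMap F K) g)) := by
    rw [coeff_map, hρ1]
  rw [h1, h, coeff_sum, map_sum, coeff_sum]
  refine Finset.sum_congr rfl fun t _ => ?_
  rw [coeff_mul, coeff_mul, map_sum]
  refine Finset.sum_congr rfl fun p _ => ?_
  rw [coeff_map, hρ2, hc]

/-- [OG-1b] Clearing denominators.  `A` a domain, `F` its fraction field.  (`IsLocalization.exist_integer_multiples` for the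
finitely many coefficients of the `H' t`, `t ∈ s`; compare `uf_clear` in Lib_MP_b9fedf_lg/UniForm.lean; then `map`
is injective.) -/
theorem clear {A W T : Type} [CommRing A] [IsDomain A] (s : Finset T)
    (f : T → MvPolynomial W A) (g : MvPolynomial W A) (H : T → MvPolynomial W (FractionRing A))
    (h : map (algebraMap A (FractionRing A)) g =
      ∑ t ∈ s, map (algebraMap A (FractionRing A)) (f t) * H t) :
    ∃ (d : A) (H' : T → MvPolynomial W A), d ≠ 0 ∧ C d * g = ∑ t ∈ s, f t * H' t := by
  classical
  obtain ⟨b, hb⟩ := IsLocalization.exist_integer_multiples (nonZeroDivisors A)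
    (s.sigma (fun t => (H t).support)) (fun p => coeff p.2 (H p.1))
  have hb0 : (b : A) ≠ 0 := nonZeroDivisors.ne_zero b.2
  have hex : ∀ t ∈ s, ∀ m : W →₀ ℕ,
      ∃ a : A, algebraMap A (FractionRing A) a = (b : A) • coeff m (H t) := by
    intro t ht m
    by_cases hm : m ∈ (H t).support
    · exact hb ⟨t, m⟩ (Finset.mem_sigma.mpr ⟨ht, hm⟩)
    · exact ⟨0, by rw [notMem_support_iff.mp hm, map_zero, smul_zero]⟩
  let c : T → (W →₀ ℕ) → A := fun t m =>
    if h : ∃ a : A, algebraMap A (FractionRing A) a = (b : A) • coeff m (H t) then h.choose else 0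
  have hcc : ∀ t ∈ s, ∀ m : W →₀ ℕ,
      algebraMap A (FractionRing A) (c t m) = (b : A) • coeff m (H t) := by
    intro t ht m
    have h1 := hex t ht m
    simp only [c, dif_pos h1]
    exact h1.choose_spec
  let H' : T → MvPolynomial W A := fun t => ∑ m ∈ (H t).support, monomial m (c t m)
  have hmap : ∀ t ∈ s, map (algebraMap A (FractionRing A)) (H' t) =
      C (algebraMap A (FractionRing A) b) * H t := by
    intro t ht
    ext m
    rw [coeff_map, coeff_C_mul, coeff_sum]
    simp only [coeff_monomial]
    rw [Finset.sum_ite_eq']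
    split_ifs with h1
    · rw [hcc t ht m, Algebra.smul_def]
    · rw [notMem_support_iff.mp h1, map_zero, mul_zero]
  refine ⟨b, H', hb0, ?_⟩
  apply map_injective (algebraMap A (FractionRing A)) (IsFractionRing.injective A (FractionRing A))
  rw [map_mul, map_C, h, Finset.mul_sum, map_sum]
  refine Finset.sum_congr rfl fun t ht => ?_
  rw [map_mul, hmap t ht]
  ring

end Pool.Agent.OG
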