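import Pool.Agent.Lib_MP_b9fedf_og.Defs
import Pool.Agent.Lib_MP_b9fedf_og.Descent

/-! [OG-1c]: elimination. A system of equations in `w` with coefficients polynomial in `a` which has
only trivial solutions for generic `a` has only trivial solutions for general `a`. -/

set_option autoImplicit false

namespace Pool.Agent.OG
open MvPolynomial

/-- [OG-1c] One polynomial `m`.  Proof.  Nullstellensatz (`MvPolynomial.vanishingIdeal_zeroLocus_eq_radical`) for
the ideal of `ℂ[w]` generated by the `map (aeval a₀) (Ψ t)`: `m ^ M = ∑ map (aeval a₀) (Ψ t) * H t`, a finite sum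
(`Ideal.mem_span_range_iff_exists_finsupp` or `Submodule.mem_span_range_iff_exists_finsupp`).  `a₀` is algebraically independent,
so `aeval a₀ : ℚ[E] → ℂ` is injective and extends to `F = FractionRing (MvPolynomial E ℚ) →+* ℂ`
(`IsFractionRing.lift`); `ℂ` is an `F`-algebra by `RingHom.toAlgebra`.  Apply `descent`, then `clear`: `C d * m ^ M = ∑ Ψ t * H' t` with
`m` mapped to `ℚ[E][w]`.  Evaluate at `(a, w)`. -/
theorem elim_one {E W T : Type} [Fintype E] [Fintype W] (Ψ : T → MvPolynomial W (MvPolynomial E ℚ))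
    (m : MvPolynomial W ℚ) (a₀ : E → ℂ) (ha₀ : AlgebraicIndependent ℚ a₀)
    (h : ∀ w : W → ℂ, (∀ t, ev a₀ w (Ψ t) = 0) → aeval w m = 0) :
    ∃ (s : Finset T) (d : MvPolynomial E ℚ), d ≠ 0 ∧ ∀ a : E → ℂ, aeval a d ≠ 0 →
      ∀ w : W → ℂ, (∀ t ∈ s, ev a w (Ψ t) = 0) → aeval w m = 0 := by
  classical
  have hinj : Function.Injective ((aeval a₀ : MvPolynomial E ℚ →ₐ[ℚ] ℂ) : MvPolynomial E ℚ →+* ℂ) := by
    intro x y hxy
    exact ha₀ hxy
  let F := FractionRing (MvPolynomial E ℚ)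
  let φ : F →+* ℂ := IsFractionRing.lift hinj
  have hφ : ∀ x, φ (algebraMap (MvPolynomial E ℚ) F x) = aeval a₀ x := fun x =>
    IsFractionRing.lift_algebraMap hinj x
  letI : Algebra F ℂ := φ.toAlgebra
  let mA : MvPolynomial W (MvPolynomial E ℚ) := map (C : ℚ →+* MvPolynomial E ℚ) m
  have hev : ∀ (w : W → ℂ) (P : MvPolynomial W (MvPolynomial E ℚ)),
      (aeval w (map (algebraMap (MvPolynomial E ℚ) F) P) : ℂ) = ev a₀ w P := by
    intro w P
    rw [aeval_def, eval₂_map]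
    unfold ev
    have h2 : (algebraMap F ℂ).comp (algebraMap (MvPolynomial E ℚ) F) =
        ((aeval a₀ : MvPolynomial E ℚ →ₐ[ℚ] ℂ) : MvPolynomial E ℚ →+* ℂ) :=
      RingHom.ext hφ
    rw [h2]
  have hm : ∀ (a : E → ℂ) (w : W → ℂ), ev a w mA = aeval w m := by
    intro a w
    show eval₂ _ w (map (C : ℚ →+* MvPolynomial E ℚ) m) = _
    rw [eval₂_map, aeval_def]
    have h2 : ((aeval a : MvPolynomial E ℚ →ₐ[ℚ] ℂ) : MvPolynomial E ℚ →+* ℂ).comp
        (C : ℚ →+* MvPolynomial E ℚ) = algebraMap ℚ ℂ := RingHom.ext_rat _ _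
    rw [h2]
  let I : Ideal (MvPolynomial W F) :=
    Ideal.span (Set.range (fun t => map (algebraMap (MvPolynomial E ℚ) F) (Ψ t)))
  have h1 : map (algebraMap (MvPolynomial E ℚ) F) mA ∈ vanishingIdeal F (zeroLocus ℂ I) := by
    rw [mem_vanishingIdeal_iff]
    intro w hw
    rw [hev, hm]
    apply h w
    intro t
    rw [← hev]
    exact hw _ (Ideal.subset_span ⟨t, rfl⟩)
  rw [vanishingIdeal_zeroLocus_eq_radical] at h1
  obtain ⟨M, hM⟩ := h1
  have hM2 : (map (algebraMap (MvPolynomial E ℚ) F) mA) ^ M ∈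
      Submodule.span (MvPolynomial W F)
        (Set.range (fun t => map (algebraMap (MvPolynomial E ℚ) F) (Ψ t))) := hM
  rw [Finsupp.mem_span_range_iff_exists_finsupp] at hM2
  obtain ⟨c, hc⟩ := hM2
  obtain ⟨d, H', hd, hH⟩ := clear c.support Ψ (mA ^ M) (fun t => c t) (by
    rw [map_pow, ← hc, Finsupp.sum]
    apply Finset.sum_congr rfl
    intro t _
    rw [smul_eq_mul, mul_comm])
  refine ⟨c.support, d, hd, fun a ha w hw => ?_⟩
  let θ : MvPolynomial W (MvPolynomial E ℚ) →+* ℂ :=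
    eval₂Hom ((aeval a : MvPolynomial E ℚ →ₐ[ℚ] ℂ) : MvPolynomial E ℚ →+* ℂ) w
  have hθ : ∀ P, θ P = ev a w P := fun P => rfl
  have h3 := congrArg θ hH
  rw [map_mul, map_pow, map_sum, hθ mA, hm a w] at h3
  have h4 : θ (C d) = aeval a d := by
    show eval₂ _ w (C d) = _
    rw [eval₂_C]
    rfl
  have h5 : ∑ t ∈ c.support, θ (Ψ t * H' t) = 0 := by
    apply Finset.sum_eq_zero
    intro t ht
    rw [map_mul, hθ (Ψ t), hw t ht, zero_mul]
  rw [h4, h5] at h3
  rcases mul_eq_zero.mp h3 with h6 | h6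
  · exact absurd h6 ha
  · exact eq_zero_of_pow_eq_zero h6

end Pool.Agent.OG
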