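import Mathlib

/-! [OG-4a]: a polynomial condition for the independence of rows. -/

set_option autoImplicit false

namespace Pool.Agent.OG
open MvPolynomial

/-- [OG-4a] The determinant of a matrix of linear forms: if the columns `c 0, …, c (r-1)` of the invertible matrix `g` are distinct
and `S` has `r` elements there is a nonzero polynomial `D` in the `a_ij` such that `D(a) ≠ 0` implies that the
rows `(a_i g)_(c j)`, `i ∈ S`, are linearly independent.  Proof.  `D = det` of the matrix of the polynomials `∑ l, X (i, l) * g l (c j)`, `i ∈ S`, `j < r`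
(`e : Fin r ≃ S`).  `D ≠ 0`: its value at `a_(e i) = e_(c i) g⁻¹` (over `ℂ`) is `1`.  `D(a) ≠ 0` implies linear independence
(`Matrix.linearIndependent_rows_of_det_ne_zero` or `LinearIndependent.of_…`), composed with `e`. -/
theorem rows_poly {N r : ℕ} {ι : Type} [Fintype ι] (g : Matrix (Fin N) (Fin N) ℤ) (hg : g.det ≠ 0)
    (c : Fin r → Fin N) (hc : Function.Injective c) (S : Finset ι) (hS : S.card = r) :
    ∃ D : MvPolynomial (ι × Fin N) ℚ, D ≠ 0 ∧ ∀ a : ι → Fin N → ℂ,
      aeval (fun x : ι × Fin N => a x.1 x.2) D ≠ 0 →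
        LinearIndependent ℂ (fun i : S => fun j : Fin r =>
          Matrix.vecMul (a i) (g.map (Int.cast : ℤ → ℂ)) (c j)) := by
  classical
  let e : Fin r ≃ S := (S.equivFinOfCardEq hS).symm
  let M : Matrix (Fin r) (Fin r) (MvPolynomial (ι × Fin N) ℚ) :=
    fun i j => ∑ l, X ((e i : ι), l) * C ((g l (c j) : ℤ) : ℚ)
  -- the value of the determinant at a point of an algebra
  have hval : ∀ (K : Type) [Field K] [Algebra ℚ K] (a : ι → Fin N → K),
      aeval (fun x : ι × Fin N => a x.1 x.2) M.det =
        (Matrix.of fun i j : Fin r => Matrix.vecMul (a (e i)) (g.map (Int.cast : ℤ → K)) (c j)).det := by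
    intro K _ _ a
    rw [AlgHom.map_det]
    congr 1
    ext i j
    simp [M, Matrix.vecMul, dotProduct, Matrix.map_apply]
  refine ⟨M.det, ?_, ?_⟩
  · intro h0
    let gq : Matrix (Fin N) (Fin N) ℚ := g.map (Int.cast : ℤ → ℚ)
    have hgq : gq.det ≠ 0 := by
      have : gq.det = ((g.det : ℤ) : ℚ) := by
        have := (Int.castRingHom ℚ).map_det g
        simpa [gq] using this.symm
      rw [this]
      exact_mod_cast hg
    have hinv : gq⁻¹ * gq = 1 := Matrix.nonsing_inv_mul gq (isUnit_iff_ne_zero.mpr hgq)
    let a : ι → Fin N → ℚ := fun x =>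
      if hx : x ∈ S then Matrix.vecMul (Pi.single (c (e.symm ⟨x, hx⟩)) 1) gq⁻¹ else 0
    have ha : ∀ i : Fin r, Matrix.vecMul (a (e i)) gq = Pi.single (c i) 1 := by
      intro i
      have h1 : a (e i) = Matrix.vecMul (Pi.single (c i) 1) gq⁻¹ := by
        simp [a]
      rw [h1, Matrix.vecMul_vecMul, hinv, Matrix.vecMul_one]
    have h1 := hval ℚ a
    rw [h0, map_zero] at h1
    have h2 : (Matrix.of fun i j : Fin r => Matrix.vecMul (a (e i)) (g.map (Int.cast : ℤ → ℚ)) (c j)) = 1 := by
      ext i j
      have := ha i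
      simp only [gq] at this
      rw [Matrix.of_apply, this, Matrix.one_apply, Pi.single_apply]
      by_cases hij : i = j
      · subst hij
        simp
      · rw [if_neg hij, if_neg (fun h => hij (hc h).symm)]
    rw [h2, Matrix.det_one] at h1
    exact zero_ne_one h1
  · intro a ha
    rw [hval ℂ a] at ha
    have h1 := Matrix.linearIndependent_rows_of_det_ne_zero ha
    have h2 := h1.comp e.symm e.symm.injective
    have h3 : (fun i : S => fun j : Fin r => Matrix.vecMul (a i) (g.map (Int.cast : ℤ → ℂ)) (c j)) =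
        (fun i => Matrix.of (fun i j : Fin r => Matrix.vecMul (a (e i)) (g.map (Int.cast : ℤ → ℂ)) (c j)) i) ∘ e.symm := by
      ext i j
      simp
    rw [h3]
    exact h2

end Pool.Agent.OG
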